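import Pool.Agent.H87.KX.MAR

/-!
# Long separations: pointwise certificates

`lam` is the line with its window, `b` a label of it, `T` the time, `Pt` the exact point, `nz` the
normal position in a fixed frame and `v` the normal velocity. From the base place `ω ∈ E` one goes
to a partner time in `B` on the same line, then to another line through the same point whose normal
velocity differs by at least `θ`. The law of the time given the line is at most `Θ / M` on `G`.
Then the conditional probability of the normal position given `(b, T)` and `E` is at most `lb`,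
outside a set of places of small probability. Nothing is assumed about the dependence of the
change of the velocity on the point; no budgets.
-/

set_option autoImplicit false

namespace Pool.LC

open Finset Real
open Pool.Agent.H49.Ent Pool.Agent.H32.Dense Pool.STK Pool.KAF Pool.KAL Pool.LJ Pool.KX

section av

variable {Ω S : Type} [Fintype Ω] {p : Ω → ℝ}

open Classical in
/-- Conditional mean. -/
noncomputable def av (p : Ω → ℝ) (f : Ω → S) (g : Ω → ℝ) (ω : Ω) : ℝ :=
  ∑ v, (if f v = f ω then p v * g v / law p f (f ω) else 0)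

theorem av_nonneg (hp : ∀ ω, 0 ≤ p ω) (f : Ω → S) {g : Ω → ℝ} (hg : ∀ ω, 0 ≤ g ω) (ω : Ω) :
    0 ≤ av p f g ω := by
  classical
  unfold av
  refine Finset.sum_nonneg fun v _ => ?_
  split_ifs
  · exact div_nonneg (mul_nonneg (hp v) (hg v)) (law_nonneg hp f _)
  · exact le_rfl

open Classical in
/-- Exchange of the two members of a pair with the same label. -/
theorem exch (f : Ω → S) (c : Ω → Ω → ℝ) :
    ∑ o, ∑ o', (if f o' = f o then p o * p o' * c o o' / law p f (f o) else 0) =
      ∑ o', ∑ o, (if f o = f o' then p o' * p o * c o o' / law p f (f o') else 0) := by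
  rw [Finset.sum_comm]
  refine Finset.sum_congr rfl fun o' _ => Finset.sum_congr rfl fun o _ => ?_
  by_cases h : f o = f o'
  · rw [if_pos h, if_pos h.symm, h, mul_comm (p o) (p o')]
  · rw [if_neg h, if_neg fun h' => h h'.symm]

open Classical in
theorem sum_fib (hp : ∀ ω, 0 ≤ p ω) (f : Ω → S) {ω : Ω} (hω : 0 < p ω) :
    ∑ v, (if f v = f ω then p v / law p f (f ω) else 0) = 1 := by
  have h0 := law_pos hp f hω
  have e1 : ∑ v, (if f v = f ω then p v / law p f (f ω) else 0) =
      (∑ v, if f v = f ω then p v else 0) / law p f (f ω) := by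
    rw [Finset.sum_div]
    refine Finset.sum_congr rfl fun v _ => ?_
    split_ifs <;> simp
  rw [e1]
  exact div_self h0.ne'

/-- Tower property. -/
theorem tower (hp : ∀ ω, 0 ≤ p ω) (f : Ω → S) (g ψ : Ω → ℝ)
    (hψ : ∀ ω ω', 0 < p ω → 0 < p ω' → f ω = f ω' → ψ ω = ψ ω') :
    ∑ ω, p ω * (ψ ω * av p f g ω) = ∑ ω, p ω * (ψ ω * g ω) := by
  classical
  have e1 : ∀ ω, p ω * (ψ ω * av p f g ω) =
      ∑ v, (if f v = f ω then p ω * p v * (ψ ω * g v) / law p f (f ω) else 0) := by
    intro ω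
    unfold av
    rw [Finset.mul_sum, Finset.mul_sum]
    refine Finset.sum_congr rfl fun v _ => ?_
    split_ifs
    · ring
    · ring
  simp_rw [e1]
  rw [exch f (fun o o' => ψ o * g o')]
  refine Finset.sum_congr rfl fun v _ => ?_
  rcases (hp v).eq_or_lt with h0 | h0
  · rw [← h0]
    simp
  have e2 : ∀ o, (if f o = f v then p v * p o * (ψ o * g v) / law p f (f v) else 0) =
      p v * (ψ v * g v) * (if f o = f v then p o / law p f (f v) else 0) := by
    intro o
    by_cases h : f o = f v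
    · rw [if_pos h, if_pos h]
      rcases (hp o).eq_or_lt with h1 | h1
      · rw [← h1]
        simp
      · rw [hψ o v h1 h0 h]
        ring
    · rw [if_neg h, if_neg h, mul_zero]
  simp_rw [e2]
  rw [← Finset.mul_sum, sum_fib hp f h0, mul_one]

end av

variable {Ω Λ β γ : Type} [Fintype Ω]

/-- The setting. -/
structure Setup (p : Ω → ℝ) (lam : Ω → Λ) (b : Ω → β) (Pt : Ω → γ) (T nz : Ω → ℤ) (v : Ω → ℝ)
    (E B G : Set Ω) (M : ℕ) (θ Θ η c₁ : ℝ) : Prop where
  law : IsLaw p
  M1 : 1 ≤ M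
  θ0 : 0 < θ
  θ1 : θ ≤ 1
  Θ0 : 0 ≤ Θ
  η0 : 0 < η
  c0 : 0 < c₁
  time : ∀ ω, 0 < p ω → 0 ≤ T ω ∧ T ω < M
  line : ∀ ω ω', 0 < p ω → 0 < p ω' → lam ω = lam ω' → b ω = b ω' ∧ v ω = v ω' ∧
    |((nz ω' : ℝ) - nz ω) - ((T ω' : ℝ) - T ω) * v ω| ≤ 16
  point : ∀ ω ω', 0 < p ω → 0 < p ω' → Pt ω = Pt ω' → b ω = b ω' ∧ T ω = T ω' ∧
    |(nz ω' : ℝ) - nz ω| ≤ 16
  act : ∀ ω ∈ B, 0 < p ω → c₁ ≤ av p Pt (fun o => open Classical in
    if o ∈ G ∧ θ ≤ |v ω - v o| then 1 else 0) ω
  dens : ∀ ω ∈ G, 0 < p ω → av p lam (fun o => open Classical in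
    if T o = T ω then 1 else 0) ω ≤ Θ / M
  sub : E ⊆ G
  part : ∀ ω ∈ E, 0 < p ω → η ≤ av p lam (fun o => open Classical in
    if o ∈ B then 1 else 0) ω

section long

/-- Time and normal position. -/
def key (T nz : Ω → ℤ) (ω : Ω) : ℤ × ℤ := (T ω, nz ω)

open Classical in
/-- The law of the base place given the line. -/
noncomputable def uu (p : Ω → ℝ) (lam : Ω → Λ) (T nz : Ω → ℤ) (G : Set Ω) (k : ℤ × ℤ)
    (ω : Ω) : ℝ :=
  av p lam (fun o => if o ∈ G ∧ T o = k.1 ∧ nz o = k.2 then 1 else 0) ω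

open Classical in
/-- The law of the base place given the other line and the crossing point. -/
noncomputable def gg (p : Ω → ℝ) (lam : Ω → Λ) (Pt : Ω → γ) (T nz : Ω → ℤ) (v : Ω → ℝ)
    (G : Set Ω) (θ : ℝ) (k : ℤ × ℤ) (o : Ω) : ℝ :=
  ∑ o', (if Pt o' = Pt o then p o' * ((if o ∈ G ∧ θ ≤ |v o' - v o| then 1 else 0) *
    uu p lam T nz G k o') / law p Pt (Pt o) else 0)

variable {p : Ω → ℝ} {lam : Ω → Λ} {b : Ω → β} {Pt : Ω → γ} {T nz : Ω → ℤ} {v : Ω → ℝ}
  {E B G : Set Ω} {M : ℕ} {θ Θ η c₁ : ℝ}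

theorem uu_nonneg (hp : ∀ ω, 0 ≤ p ω) (k : ℤ × ℤ) (ω : Ω) : 0 ≤ uu p lam T nz G k ω := by
  classical
  refine av_nonneg hp lam (fun o => ?_) ω
  split_ifs <;> norm_num

theorem gg_nonneg (hp : ∀ ω, 0 ≤ p ω) (k : ℤ × ℤ) (ω : Ω) :
    0 ≤ gg p lam Pt T nz v G θ k ω := by
  classical
  unfold gg
  refine Finset.sum_nonneg fun o' _ => ?_
  split_ifs with h1 h2
  · exact div_nonneg (mul_nonneg (hp o') (by simpa using uu_nonneg hp k o'))
      (law_nonneg hp Pt _)
  · simp
  · exact le_rfl

/-- The walk reaches every base place with the right weight. -/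
theorem dom (h : Setup p lam b Pt T nz v E B G M θ Θ η c₁) (φ : Ω → ℤ × ℤ → ℝ)
    (hφ0 : ∀ ω k, 0 ≤ φ ω k)
    (hφ : ∀ ω ω' k, 0 < p ω → 0 < p ω' → b ω = b ω' → φ ω k = φ ω' k)
    (S : Finset (ℤ × ℤ)) (hS : ∀ ω, 0 < p ω → key T nz ω ∈ S) :
    η * c₁ * ∑ ω, p ω * (open Classical in if ω ∈ E then φ ω (key T nz ω) else 0) ≤
      ∑ k ∈ S, ∑ o, p o * (φ o k * gg p lam Pt T nz v G θ k o) := by
  classical
  have hp := h.law.nonneg
  -- first exchange
  have ha : ∀ k, c₁ * ∑ o', p o' * (if o' ∈ B then φ o' k * uu p lam T nz G k o' else 0) ≤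
      ∑ o, p o * (φ o k * gg p lam Pt T nz v G θ k o) := by
    intro k
    have e1 : ∀ o, p o * (φ o k * gg p lam Pt T nz v G θ k o) =
        ∑ o', (if Pt o' = Pt o then p o * p o' * (φ o k *
          ((if o ∈ G ∧ θ ≤ |v o' - v o| then 1 else 0) * uu p lam T nz G k o')) /
            law p Pt (Pt o) else 0) := by
      intro o
      unfold gg
      rw [Finset.mul_sum, Finset.mul_sum]
      refine Finset.sum_congr rfl fun o' _ => ?_
      by_cases h1 : Pt o' = Pt o
      · rw [if_pos h1, if_pos h1]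
        ring
      · rw [if_neg h1, if_neg h1]
        ring
    simp_rw [e1]
    rw [exch Pt (fun o o' => φ o k *
          ((if o ∈ G ∧ θ ≤ |v o' - v o| then 1 else 0) * uu p lam T nz G k o')),
      Finset.mul_sum]
    refine Finset.sum_le_sum fun o' _ => ?_
    rcases (hp o').eq_or_lt with h0 | h0
    · rw [← h0]
      simp
    have hnn : ∀ o, 0 ≤ (if Pt o = Pt o' then p o' * p o * (φ o k *
          ((if o ∈ G ∧ θ ≤ |v o' - v o| then 1 else 0) * uu p lam T nz G k o')) /
            law p Pt (Pt o') else 0) := by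
      intro o
      split_ifs
      · refine div_nonneg (mul_nonneg (mul_nonneg (hp _) (hp _)) (mul_nonneg (hφ0 _ _) ?_))
          (law_nonneg hp _ _)
        rw [one_mul]
        exact uu_nonneg hp _ _
      · simp
      · exact le_rfl
    by_cases hB : o' ∈ B
    · rw [if_pos hB]
      have e2 : ∑ o, (if Pt o = Pt o' then p o' * p o * (φ o k *
          ((if o ∈ G ∧ θ ≤ |v o' - v o| then 1 else 0) * uu p lam T nz G k o')) /
            law p Pt (Pt o') else 0) =
          (p o' * (φ o' k * uu p lam T nz G k o')) * av p Pt (fun o =>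
            if o ∈ G ∧ θ ≤ |v o' - v o| then 1 else 0) o' := by
        unfold av
        rw [Finset.mul_sum]
        refine Finset.sum_congr rfl fun o _ => ?_
        by_cases h1 : Pt o = Pt o'
        · rw [if_pos h1, if_pos h1]
          rcases (hp o).eq_or_lt with h2 | h2
          · rw [← h2]
            simp
          · rw [hφ o o' k h2 h0 (h.point o o' h2 h0 h1).1]
            ring
        · rw [if_neg h1, if_neg h1, mul_zero]
      rw [e2]
      have h3 := h.act o' hB h0
      have h4 : 0 ≤ p o' * (φ o' k * uu p lam T nz G k o') :=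
        mul_nonneg (hp _) (mul_nonneg (hφ0 _ _) (uu_nonneg hp _ _))
      calc c₁ * (p o' * (φ o' k * uu p lam T nz G k o'))
          = (p o' * (φ o' k * uu p lam T nz G k o')) * c₁ := by ring
        _ ≤ _ := mul_le_mul_of_nonneg_left h3 h4
    · rw [if_neg hB, mul_zero, mul_zero]
      exact Finset.sum_nonneg fun o _ => hnn o
  -- second exchange
  have hb : ∀ k, η * ∑ o, p o * (if o ∈ E then φ o k *
      (if T o = k.1 ∧ nz o = k.2 then 1 else 0) else 0) ≤
      ∑ o', p o' * (if o' ∈ B then φ o' k * uu p lam T nz G k o' else 0) := by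
    intro k
    have e1 : ∀ o', p o' * (if o' ∈ B then φ o' k * uu p lam T nz G k o' else 0) =
        ∑ o, (if lam o = lam o' then p o' * p o * ((if o' ∈ B then φ o' k else 0) *
          (if o ∈ G ∧ T o = k.1 ∧ nz o = k.2 then 1 else 0)) / law p lam (lam o') else 0) := by
      intro o'
      unfold uu av
      by_cases hB : o' ∈ B
      · simp only [if_pos hB]
        rw [Finset.mul_sum, Finset.mul_sum]
        refine Finset.sum_congr rfl fun o _ => ?_
        by_cases h1 : lam o = lam o'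
        · rw [if_pos h1, if_pos h1]
          ring
        · rw [if_neg h1, if_neg h1]
          ring
      · rw [if_neg hB, mul_zero]
        symm
        refine Finset.sum_eq_zero fun o _ => ?_
        split_ifs <;> simp
    simp_rw [e1]
    rw [exch lam (fun o' o => (if o' ∈ B then φ o' k else 0) *
          (if o ∈ G ∧ T o = k.1 ∧ nz o = k.2 then 1 else 0)), Finset.mul_sum]
    refine Finset.sum_le_sum fun o _ => ?_
    rcases (hp o).eq_or_lt with h0 | h0
    · rw [← h0]
      simp
    have hnn : ∀ o', 0 ≤ (if lam o' = lam o then p o * p o' * ((if o' ∈ B then φ o' k else 0) *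
          (if o ∈ G ∧ T o = k.1 ∧ nz o = k.2 then 1 else 0)) / law p lam (lam o) else 0) := by
      intro o'
      have h5 : 0 ≤ (if o' ∈ B then φ o' k else 0) := by
        split_ifs
        · exact hφ0 _ _
        · exact le_rfl
      split_ifs
      · exact div_nonneg (mul_nonneg (mul_nonneg (hp _) (hp _)) (mul_nonneg (hφ0 _ _)
          zero_le_one)) (law_nonneg hp _ _)
      · simp
      · simp
      · simp
      · exact le_rfl
    by_cases hE : o ∈ E
    · rw [if_pos hE]
      by_cases hk : T o = k.1 ∧ nz o = k.2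
      · have hG : o ∈ G ∧ T o = k.1 ∧ nz o = k.2 := ⟨h.sub hE, hk⟩
        rw [if_pos hk]
        have e2 : ∑ o', (if lam o' = lam o then p o * p o' * ((if o' ∈ B then φ o' k else 0) *
            (if o ∈ G ∧ T o = k.1 ∧ nz o = k.2 then 1 else 0)) / law p lam (lam o) else 0) =
            (p o * φ o k) * av p lam (fun o' => if o' ∈ B then 1 else 0) o := by
          unfold av
          rw [Finset.mul_sum]
          refine Finset.sum_congr rfl fun o' _ => ?_
          rw [if_pos hG]
          by_cases h1 : lam o' = lam o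
          · rw [if_pos h1, if_pos h1]
            rcases (hp o').eq_or_lt with h2 | h2
            · rw [← h2]
              simp
            · rw [hφ o' o k h2 h0 (h.line o' o h2 h0 h1).1]
              by_cases h3 : o' ∈ B
              · simp only [if_pos h3]
                ring
              · simp only [if_neg h3]
                ring
          · rw [if_neg h1, if_neg h1, mul_zero]
        rw [e2]
        have h3 := h.part o hE h0
        have h4 : 0 ≤ p o * φ o k := mul_nonneg (hp _) (hφ0 _ _)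
        calc η * (p o * (φ o k * 1)) = (p o * φ o k) * η := by ring
          _ ≤ _ := mul_le_mul_of_nonneg_left h3 h4
      · rw [if_neg hk, mul_zero, mul_zero, mul_zero]
        exact Finset.sum_nonneg fun o' _ => hnn o'
    · rw [if_neg hE, mul_zero, mul_zero]
      exact Finset.sum_nonneg fun o' _ => hnn o'
  -- all keys
  have hc : ∑ ω, p ω * (if ω ∈ E then φ ω (key T nz ω) else 0) =
      ∑ k ∈ S, ∑ o, p o * (if o ∈ E then φ o k *
        (if T o = k.1 ∧ nz o = k.2 then 1 else 0) else 0) := by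
    rw [Finset.sum_comm]
    refine Finset.sum_congr rfl fun o _ => ?_
    rcases (hp o).eq_or_lt with h0 | h0
    · rw [← h0]
      simp
    rw [← Finset.mul_sum]
    congr 1
    by_cases hE : o ∈ E
    · simp only [if_pos hE]
      rw [Finset.sum_eq_single (key T nz o)]
      · unfold key
        simp
      · intro k _ hk
        rw [if_neg, mul_zero]
        rintro ⟨h1, h2⟩
        exact hk (Prod.ext h1.symm h2.symm)
      · intro h1
        exact absurd (hS o h0) h1
    · simp [if_neg hE]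
  rw [hc]
  calc η * c₁ * ∑ k ∈ S, ∑ o, p o * (if o ∈ E then φ o k *
        (if T o = k.1 ∧ nz o = k.2 then 1 else 0) else 0)
      = ∑ k ∈ S, c₁ * (η * ∑ o, p o * (if o ∈ E then φ o k *
        (if T o = k.1 ∧ nz o = k.2 then 1 else 0) else 0)) := by
        rw [Finset.mul_sum]
        refine Finset.sum_congr rfl fun k _ => ?_
        ring
    _ ≤ ∑ k ∈ S, c₁ * ∑ o', p o' * (if o' ∈ B then φ o' k * uu p lam T nz G k o' else 0) :=
        Finset.sum_le_sum fun k _ => mul_le_mul_of_nonneg_left (hb k) h.c0.le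
    _ ≤ _ := Finset.sum_le_sum fun k _ => ha k

theorem dens' (h : Setup p lam b Pt T nz v E B G M θ Θ η c₁) (ω : Ω) (t : ℤ) :
    ∑ q, (open Classical in if lam q = lam ω ∧ q ∈ G ∧ T q = t then
      p q / law p lam (lam ω) else 0) ≤ Θ / M := by
  classical
  have hp := h.law.nonneg
  have hM : (0 : ℝ) ≤ M := Nat.cast_nonneg M
  by_cases hex : ∃ q, 0 < p q ∧ lam q = lam ω ∧ q ∈ G ∧ T q = t
  · obtain ⟨q, h1, h2, h3, h4⟩ := hex
    refine le_trans ?_ (h.dens q h3 h1)
    unfold av
    refine Finset.sum_le_sum fun o _ => ?_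
    have h5 : 0 ≤ p o / law p lam (lam ω) := div_nonneg (hp o) (law_nonneg hp _ _)
    by_cases h6 : lam o = lam ω ∧ o ∈ G ∧ T o = t
    · rw [if_pos h6, if_pos (h6.1.trans h2.symm)]
      simp only [if_pos (h6.2.2.trans h4.symm)]
      rw [h2, mul_one]
    · rw [if_neg h6, h2]
      by_cases h7 : lam o = lam ω
      · rw [if_pos h7]
        refine div_nonneg (mul_nonneg (hp o) ?_) (law_nonneg hp _ _)
        show (0 : ℝ) ≤ if T o = T q then 1 else 0
        split_ifs <;> norm_num
      · rw [if_neg h7]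
  · refine le_trans (le_of_eq (Finset.sum_eq_zero fun q _ => ?_)) (div_nonneg h.Θ0 hM)
    by_cases h6 : lam q = lam ω ∧ q ∈ G ∧ T q = t
    · rw [if_pos h6]
      rcases (hp q).eq_or_lt with h0 | h0
      · rw [← h0, zero_div]
      · exact absurd ⟨q, h0, h6⟩ hex
    · rw [if_neg h6]

theorem uu_exists {k : ℤ × ℤ} {ω : Ω} (hp : ∀ ω, 0 ≤ p ω)
    (h : uu p lam T nz G k ω ≠ 0) : ∃ o, 0 < p o ∧ lam o = lam ω ∧ o ∈ G ∧ T o = k.1 ∧
      nz o = k.2 := by
  classical
  unfold uu av at h
  obtain ⟨o, _, ho⟩ := Finset.exists_ne_zero_of_sum_ne_zero h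
  by_cases h1 : lam o = lam ω
  · rw [if_pos h1] at ho
    by_cases h2 : o ∈ G ∧ T o = k.1 ∧ nz o = k.2
    · refine ⟨o, (hp o).lt_of_ne fun h0 => ho ?_, h1, h2⟩
      rw [← h0]
      simp
    · simp only [if_neg h2] at ho
      simp at ho
  · rw [if_neg h1] at ho
    exact absurd rfl ho

theorem uu_sum (h : Setup p lam b Pt T nz v E B G M θ Θ η c₁) (ω : Ω) (t : ℤ) (X : Finset ℤ) :
    ∑ x ∈ X, uu p lam T nz G (t, x) ω ≤ Θ / M := by
  classical
  have hp := h.law.nonneg
  refine le_trans ?_ (dens' h ω t)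
  unfold uu av
  rw [Finset.sum_comm]
  refine Finset.sum_le_sum fun o _ => ?_
  have h5 : 0 ≤ p o / law p lam (lam ω) := div_nonneg (hp o) (law_nonneg hp _ _)
  by_cases h1 : lam o = lam ω
  · simp only [if_pos h1]
    by_cases h2 : o ∈ G ∧ T o = t
    · have h3 : ∀ x ∈ X, p o * (if o ∈ G ∧ T o = t ∧ nz o = x then 1 else 0) /
          law p lam (lam ω) = if nz o = x then p o / law p lam (lam ω) else 0 := by
        intro x _
        by_cases h4 : nz o = x
        · rw [if_pos ⟨h2.1, h2.2, h4⟩, if_pos h4, mul_one]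
        · rw [if_neg (fun hh => h4 hh.2.2), if_neg h4]
          simp
      rw [Finset.sum_congr rfl h3, Finset.sum_ite_eq,
        if_pos (show lam o = lam ω ∧ o ∈ G ∧ T o = t from ⟨h1, h2⟩)]
      split_ifs
      · exact le_rfl
      · exact h5
    · refine le_trans (le_of_eq (Finset.sum_eq_zero fun x _ => ?_)) ?_
      · rw [if_neg (fun hh => h2 ⟨hh.1, hh.2.1⟩)]
        simp
      · split_ifs
        · exact h5
        · exact le_rfl
  · simp only [if_neg h1, Finset.sum_const_zero]
    rw [if_neg (fun hh => h1 hh.1)]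

/-- Collisions of two crossings of the same line. -/
theorem coll (h : Setup p lam b Pt T nz v E B G M θ Θ η c₁) {ω o o' q q' : Ω} (hω : 0 < p ω)
    (ho : 0 < p o) (ho' : 0 < p o') (hq : 0 < p q) (hq' : 0 < p q') (h1 : lam o = lam ω)
    (h2 : Pt o' = Pt o) (h3 : θ ≤ |v o' - v o|) (h4 : lam q = lam ω) (h5 : Pt q' = Pt q)
    (h6 : θ ≤ |v q' - v q|) (X : Finset ℤ) :
    ∑ k ∈ (Finset.Ico (0 : ℤ) (0 + (M : ℤ))) ×ˢ X, uu p lam T nz G k o' * uu p lam T nz G k q' ≤
      (Θ / M) ^ 2 * (1026 * M / θ * (1 / max |(T o : ℝ) - T q| 1)) := by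
  classical
  have hp := h.law.nonneg
  have hM : (0 : ℝ) ≤ M := Nat.cast_nonneg M
  have hΘ : 0 ≤ Θ / M := div_nonneg h.Θ0 hM
  rw [Finset.sum_product]
  have hs : ∀ s ∈ Finset.Ico (0 : ℤ) (0 + (M : ℤ)),
      ∑ x ∈ X, uu p lam T nz G (s, x) o' * uu p lam T nz G (s, x) q' ≤
        (Θ / M) ^ 2 * ∑ t' ∈ Finset.Ico (0 : ℤ) (0 + (M : ℤ)),
          (if mnr θ M (T o, v o' - v o) s (T q, v q' - v q) t' then (1 : ℝ) else 0) := by
    intro s hsm
    by_cases hm : mnr θ M (T o, v o' - v o) s (T q, v q' - v q) s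
    · have e1 : (1 : ℝ) ≤ ∑ t' ∈ Finset.Ico (0 : ℤ) (0 + (M : ℤ)),
          (if mnr θ M (T o, v o' - v o) s (T q, v q' - v q) t' then (1 : ℝ) else 0) := by
        refine le_trans (le_of_eq ?_) (Finset.single_le_sum (f := fun t' =>
          (if mnr θ M (T o, v o' - v o) s (T q, v q' - v q) t' then (1 : ℝ) else 0))
          (fun t' _ => ?_) hsm)
        · simp only [if_pos hm]
        · split_ifs <;> norm_num
      calc ∑ x ∈ X, uu p lam T nz G (s, x) o' * uu p lam T nz G (s, x) q'
          ≤ ∑ x ∈ X, uu p lam T nz G (s, x) o' * (Θ / M) := by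
            refine Finset.sum_le_sum fun x hx => mul_le_mul_of_nonneg_left ?_ (uu_nonneg hp _ _)
            refine le_trans ?_ (uu_sum h q' s X)
            exact Finset.single_le_sum (f := fun x => uu p lam T nz G (s, x) q')
              (fun x _ => uu_nonneg hp _ _) hx
        _ = (∑ x ∈ X, uu p lam T nz G (s, x) o') * (Θ / M) := by rw [Finset.sum_mul]
        _ ≤ (Θ / M) * (Θ / M) := mul_le_mul_of_nonneg_right (uu_sum h o' s X) hΘ
        _ = (Θ / M) ^ 2 * 1 := by ring
        _ ≤ _ := mul_le_mul_of_nonneg_left e1 (by positivity)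
    · refine le_trans (le_of_eq (Finset.sum_eq_zero fun x _ => ?_)) (mul_nonneg (by positivity)
        (Finset.sum_nonneg fun t' _ => by split_ifs <;> norm_num))
      by_contra hne
      have hne1 := left_ne_zero_of_mul hne
      have hne2 := right_ne_zero_of_mul hne
      obtain ⟨o3, a1, a2, _, a4, a5⟩ := uu_exists hp hne1
      obtain ⟨q3, b1, b2, _, b4, b5⟩ := uu_exists hp hne2
      apply hm
      have t1 := h.time o ho
      have t2 := h.time q hq
      have t3 := h.time o3 a1
      have hs0 : 0 ≤ s ∧ s < M := by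
        rw [Finset.mem_Ico] at hsm
        constructor <;> omega
      have hTo := (h.point o' o ho' ho h2).2.1
      have hTq := (h.point q' q hq' hq h5).2.1
      have l1 := (h.line o' o3 ho' a1 a2.symm).2.2
      have l2 := (h.point o' o ho' ho h2).2.2
      have l3 := (h.line o ω ho hω h1)
      have m1 := (h.line q' q3 hq' b1 b2.symm).2.2
      have m2 := (h.point q' q hq' hq h5).2.2
      have m3 := (h.line q ω hq hω h4)
      have l4 := l3.2.2
      have m4 := m3.2.2
      have l5 := l3.2.1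
      have m5 := m3.2.1
      simp only at a4 a5 b4 b5
      rw [a4, a5, hTo] at l1
      rw [b4, b5, hTq] at m1
      have c1 : |((s : ℝ) - T o)| ≤ M := by
        have d1 : (0 : ℝ) ≤ s := by exact_mod_cast hs0.1
        have d2 : (s : ℝ) ≤ M := by exact_mod_cast hs0.2.le
        have d3 : (0 : ℝ) ≤ T o := by exact_mod_cast t1.1
        have d4 : (T o : ℝ) ≤ M := by exact_mod_cast t1.2.le
        rw [abs_le]
        constructor <;> linarith
      have c2 : |((s : ℝ) - T q)| ≤ M := by
        have d1 : (0 : ℝ) ≤ s := by exact_mod_cast hs0.1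
        have d2 : (s : ℝ) ≤ M := by exact_mod_cast hs0.2.le
        have d3 : (0 : ℝ) ≤ T q := by exact_mod_cast t2.1
        have d4 : (T q : ℝ) ≤ M := by exact_mod_cast t2.2.le
        rw [abs_le]
        constructor <;> linarith
      refine ⟨⟨h3, h6, c1, c2⟩, rfl, ?_⟩
      have e1 : ((s : ℝ) - T o) * (v o' - v o) - ((s : ℝ) - T q) * (v q' - v q) =
          -((((x : ℤ) : ℝ) - nz o' - ((s : ℝ) - T o) * v o')) +
          (((x : ℤ) : ℝ) - nz q' - ((s : ℝ) - T q) * v q') +
          ((nz o : ℝ) - nz o') - ((nz q : ℝ) - nz q') +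
          (((nz ω : ℝ) - nz o) - ((T ω : ℝ) - T o) * v o) -
          (((nz ω : ℝ) - nz q) - ((T ω : ℝ) - T q) * v q) := by
        rw [l5, m5]
        ring
      rw [e1]
      have f1 := abs_le.1 l1
      have f2 := abs_le.1 m1
      have f3 := abs_le.1 l2
      have f4 := abs_le.1 m2
      have f5 := abs_le.1 l4
      have f6 := abs_le.1 m4
      rw [abs_le]
      constructor <;> linarith [f1.1, f1.2, f2.1, f2.2, f3.1, f3.2, f4.1, f4.2, f5.1, f5.2,
        f6.1, f6.2]
  refine (Finset.sum_le_sum hs).trans ?_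
  rw [← Finset.mul_sum]
  exact mul_le_mul_of_nonneg_left (mnr_count h.θ0 h.θ1 h.M1 le_rfl _ _) (by positivity)

open Classical in
/-- The weight of a crossing, given one of the lines. -/
noncomputable def wt (p : Ω → ℝ) (lam : Ω → Λ) (Pt : Ω → γ) (v : Ω → ℝ) (G : Set Ω) (θ : ℝ)
    (ω o o' : Ω) : ℝ :=
  if lam o = lam ω ∧ Pt o' = Pt o ∧ o ∈ G ∧ θ ≤ |v o' - v o| then
    p o * p o' / (law p lam (lam ω) * law p Pt (Pt o)) else 0

open Classical in
/-- The weight of a place, given the line. -/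
noncomputable def yw (p : Ω → ℝ) (lam : Ω → Λ) (G : Set Ω) (ω o : Ω) : ℝ :=
  if lam o = lam ω ∧ o ∈ G then p o / law p lam (lam ω) else 0

theorem wt_nonneg (hp : ∀ ω, 0 ≤ p ω) (ω o o' : Ω) : 0 ≤ wt p lam Pt v G θ ω o o' := by
  unfold wt
  split_ifs
  · exact div_nonneg (mul_nonneg (hp _) (hp _)) (mul_nonneg (law_nonneg hp _ _)
      (law_nonneg hp _ _))
  · exact le_rfl

theorem yw_nonneg (hp : ∀ ω, 0 ≤ p ω) (ω o : Ω) : 0 ≤ yw p lam G ω o := by
  unfold yw
  split_ifs
  · exact div_nonneg (hp _) (law_nonneg hp _ _)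
  · exact le_rfl

theorem wt_sum (hp : ∀ ω, 0 ≤ p ω) (ω o : Ω) :
    ∑ o', wt p lam Pt v G θ ω o o' ≤ yw p lam G ω o := by
  classical
  rcases (hp o).eq_or_lt with h0 | h0
  · refine le_trans (le_of_eq (Finset.sum_eq_zero fun o' _ => ?_)) (yw_nonneg hp ω o)
    unfold wt
    split_ifs
    · rw [← h0]
      simp
    · rfl
  by_cases h1 : lam o = lam ω ∧ o ∈ G
  · have e1 := sum_fib hp Pt h0
    have e2 : yw p lam G ω o = p o / law p lam (lam ω) *
        ∑ o', (if Pt o' = Pt o then p o' / law p Pt (Pt o) else 0) := by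
      rw [e1, mul_one]
      unfold yw
      rw [if_pos h1]
    rw [e2, Finset.mul_sum]
    refine Finset.sum_le_sum fun o' _ => ?_
    have h5 : 0 ≤ p o / law p lam (lam ω) := div_nonneg (hp o) (law_nonneg hp _ _)
    have h6 : 0 ≤ p o' / law p Pt (Pt o) := div_nonneg (hp o') (law_nonneg hp _ _)
    unfold wt
    by_cases h2 : lam o = lam ω ∧ Pt o' = Pt o ∧ o ∈ G ∧ θ ≤ |v o' - v o|
    · rw [if_pos h2, if_pos h2.2.1, div_mul_div_comm]
    · rw [if_neg h2]
      split_ifs
      · exact mul_nonneg h5 h6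
      · simp
  · refine le_trans (le_of_eq (Finset.sum_eq_zero fun o' _ => ?_)) (yw_nonneg hp ω o)
    unfold wt
    rw [if_neg]
    exact fun h2 => h1 ⟨h2.1, h2.2.2.1⟩

theorem av_gg (k : ℤ × ℤ) (ω : Ω) :
    av p lam (gg p lam Pt T nz v G θ k) ω =
      ∑ o, ∑ o', wt p lam Pt v G θ ω o o' * uu p lam T nz G k o' := by
  classical
  unfold av gg
  refine Finset.sum_congr rfl fun o _ => ?_
  by_cases h1 : lam o = lam ω
  · rw [if_pos h1, Finset.mul_sum, Finset.sum_div]
    refine Finset.sum_congr rfl fun o' _ => ?_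
    unfold wt
    by_cases h2 : Pt o' = Pt o
    · by_cases h3 : o ∈ G ∧ θ ≤ |v o' - v o|
      · rw [if_pos h2, if_pos h3, if_pos ⟨h1, h2, h3.1, h3.2⟩, one_mul]
        by_cases h4 : law p lam (lam ω) = 0
        · simp [h4]
        by_cases h5 : law p Pt (Pt o) = 0
        · simp [h5]
        field_simp
      · rw [if_pos h2, if_neg h3, if_neg (fun h => h3 h.2.2)]
        simp
    · rw [if_neg h2, if_neg (fun h => h2 h.2.1)]
      simp
  · rw [if_neg h1]
    symm
    refine Finset.sum_eq_zero fun o' _ => ?_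
    unfold wt
    rw [if_neg (fun h => h1 h.1), zero_mul]

theorem yw_sum (h : Setup p lam b Pt T nz v E B G M θ Θ η c₁) {ω o : Ω} (ho : 0 < p o) :
    ∑ q, yw p lam G ω q * (1 / max |(T o : ℝ) - T q| 1) ≤
      Θ / M * (4 * (1 + Real.log M)) := by
  classical
  have hp := h.law.nonneg
  have hM : (0 : ℝ) ≤ M := Nat.cast_nonneg M
  have hΘ : 0 ≤ Θ / M := div_nonneg h.Θ0 hM
  have hto := h.time o ho
  have e1 : ∀ q, yw p lam G ω q * (1 / max |(T o : ℝ) - T q| 1) =
      ∑ t ∈ Finset.Ico (0 : ℤ) (0 + (M : ℤ)), (1 / max |(T o : ℝ) - t| 1) *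
        (if lam q = lam ω ∧ q ∈ G ∧ T q = t then p q / law p lam (lam ω) else 0) := by
    intro q
    rcases (hp q).eq_or_lt with h0 | h0
    · have e2 : yw p lam G ω q = 0 := by
        unfold yw
        rw [← h0]
        simp
      rw [e2, zero_mul]
      symm
      refine Finset.sum_eq_zero fun t _ => ?_
      rw [← h0]
      simp
    · have htq := h.time q h0
      rw [Finset.sum_eq_single (T q)]
      · unfold yw
        by_cases h1 : lam q = lam ω ∧ q ∈ G
        · rw [if_pos h1, if_pos ⟨h1.1, h1.2, rfl⟩]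
          ring
        · rw [if_neg h1, if_neg (fun h2 => h1 ⟨h2.1, h2.2.1⟩)]
          ring
      · intro t _ hne
        rw [if_neg (fun h2 => hne h2.2.2.symm), mul_zero]
      · intro h1
        exact absurd (Finset.mem_Ico.2 ⟨htq.1, by omega⟩) h1
  simp_rw [e1]
  rw [Finset.sum_comm]
  calc ∑ t ∈ Finset.Ico (0 : ℤ) (0 + (M : ℤ)), ∑ q, (1 / max |(T o : ℝ) - t| 1) *
        (if lam q = lam ω ∧ q ∈ G ∧ T q = t then p q / law p lam (lam ω) else 0)
      ≤ ∑ t ∈ Finset.Ico (0 : ℤ) (0 + (M : ℤ)), (1 / max |(T o : ℝ) - t| 1) * (Θ / M) := by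
        refine Finset.sum_le_sum fun t _ => ?_
        rw [← Finset.mul_sum]
        exact mul_le_mul_of_nonneg_left (dens' h ω t) (by positivity)
    _ = (∑ t ∈ Finset.Ico (0 : ℤ) (0 + (M : ℤ)), 1 / max |(T o : ℝ) - t| 1) * (Θ / M) := by
        rw [Finset.sum_mul]
    _ ≤ 4 * (1 + Real.log M) * (Θ / M) := mul_le_mul_of_nonneg_right
        (harmZ M h.M1 0 (T o) (Finset.mem_Ico.2 ⟨hto.1, by omega⟩)) hΘ
    _ = _ := by ring

theorem energy (h : Setup p lam b Pt T nz v E B G M θ Θ η c₁) {ω : Ω} (hω : 0 < p ω)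
    (X : Finset ℤ) :
    ∑ k ∈ (Finset.Ico (0 : ℤ) (0 + (M : ℤ))) ×ˢ X,
      (av p lam (gg p lam Pt T nz v G θ k) ω) ^ 2 ≤
      4104 * Θ ^ 3 * (1 + Real.log M) / (θ * M ^ 2) := by
  classical
  have hp := h.law.nonneg
  have hM1 : (1 : ℝ) ≤ M := by exact_mod_cast h.M1
  have hM : (0 : ℝ) < M := by linarith
  have hlog : 0 ≤ Real.log M := Real.log_nonneg hM1
  have hθ := h.θ0
  have hΘ := h.Θ0
  set S := (Finset.Ico (0 : ℤ) (0 + (M : ℤ))) ×ˢ X with hS
  set D : Ω → Ω → ℝ := fun o q => (Θ / M) ^ 2 * (1026 * M / θ * (1 / max |(T o : ℝ) - T q| 1))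
    with hD
  have hD0 : ∀ o q, 0 ≤ D o q := fun o q => by
    rw [hD]
    positivity
  have e1 : ∑ k ∈ S, (av p lam (gg p lam Pt T nz v G θ k) ω) ^ 2 =
      ∑ o, ∑ o', ∑ q, ∑ q', wt p lam Pt v G θ ω o o' * wt p lam Pt v G θ ω q q' *
        ∑ k ∈ S, uu p lam T nz G k o' * uu p lam T nz G k q' := by
    have e2 : ∀ k ∈ S, (av p lam (gg p lam Pt T nz v G θ k) ω) ^ 2 =
        ∑ o, ∑ o', ∑ q, ∑ q', wt p lam Pt v G θ ω o o' * wt p lam Pt v G θ ω q q' *
          (uu p lam T nz G k o' * uu p lam T nz G k q') := by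
      intro k _
      rw [av_gg, sq, Finset.sum_mul]
      refine Finset.sum_congr rfl fun o _ => ?_
      rw [Finset.sum_mul]
      refine Finset.sum_congr rfl fun o' _ => ?_
      rw [Finset.mul_sum]
      refine Finset.sum_congr rfl fun q _ => ?_
      rw [Finset.mul_sum]
      refine Finset.sum_congr rfl fun q' _ => ?_
      ring
    rw [Finset.sum_congr rfl e2, Finset.sum_comm]
    refine Finset.sum_congr rfl fun o _ => ?_
    rw [Finset.sum_comm]
    refine Finset.sum_congr rfl fun o' _ => ?_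
    rw [Finset.sum_comm]
    refine Finset.sum_congr rfl fun q _ => ?_
    rw [Finset.sum_comm]
    refine Finset.sum_congr rfl fun q' _ => ?_
    rw [Finset.mul_sum]
  rw [e1]
  have e3 : ∀ o o' q q', wt p lam Pt v G θ ω o o' * wt p lam Pt v G θ ω q q' *
        ∑ k ∈ S, uu p lam T nz G k o' * uu p lam T nz G k q' ≤
      wt p lam Pt v G θ ω o o' * (wt p lam Pt v G θ ω q q' * D o q) := by
    intro o o' q q'
    rw [mul_assoc]
    have hpos : ∀ a a', 0 < wt p lam Pt v G θ ω a a' → 0 < p a ∧ 0 < p a' ∧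
        lam a = lam ω ∧ Pt a' = Pt a ∧ θ ≤ |v a' - v a| := by
      intro a a' ha
      unfold wt at ha
      split_ifs at ha with h1
      · refine ⟨(hp a).lt_of_ne fun h0 => ?_, (hp a').lt_of_ne fun h0 => ?_, h1.1, h1.2.1,
          h1.2.2.2⟩
        · rw [← h0] at ha
          simp at ha
        · rw [← h0] at ha
          simp at ha
      · exact absurd ha (lt_irrefl _)
    rcases (wt_nonneg (θ := θ) (Pt := Pt) (v := v) (lam := lam) (G := G) hp ω o o').eq_or_lt
      with h0 | h0
    · rw [← h0]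
      simp
    refine mul_le_mul_of_nonneg_left ?_ h0.le
    rcases (wt_nonneg (θ := θ) (Pt := Pt) (v := v) (lam := lam) (G := G) hp ω q q').eq_or_lt
      with h1 | h1
    · rw [← h1]
      simp
    refine mul_le_mul_of_nonneg_left ?_ h1.le
    obtain ⟨a1, a2, a3, a4, a5⟩ := hpos o o' h0
    obtain ⟨b1, b2, b3, b4, b5⟩ := hpos q q' h1
    exact coll h hω a1 a2 b1 b2 a3 a4 a5 b3 b4 b5 X
  have e4 : ∀ o, 0 < p o → ∑ q, ∑ q', wt p lam Pt v G θ ω q q' * D o q ≤
      (Θ / M) ^ 2 * (1026 * M / θ) * (Θ / M * (4 * (1 + Real.log M))) := by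
    intro o ho
    calc ∑ q, ∑ q', wt p lam Pt v G θ ω q q' * D o q
        = ∑ q, (∑ q', wt p lam Pt v G θ ω q q') * D o q := by
          refine Finset.sum_congr rfl fun q _ => ?_
          rw [Finset.sum_mul]
      _ ≤ ∑ q, yw p lam G ω q * D o q := Finset.sum_le_sum fun q _ =>
          mul_le_mul_of_nonneg_right (wt_sum hp ω q) (hD0 o q)
      _ = (Θ / M) ^ 2 * (1026 * M / θ) *
            ∑ q, yw p lam G ω q * (1 / max |(T o : ℝ) - T q| 1) := by
          rw [Finset.mul_sum]
          refine Finset.sum_congr rfl fun q _ => ?_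
          rw [hD]
          ring
      _ ≤ _ := mul_le_mul_of_nonneg_left (yw_sum h ho) (by positivity)
  set E1 : ℝ := (Θ / M) ^ 2 * (1026 * M / θ) * (Θ / M * (4 * (1 + Real.log M))) with hE1
  have hE10 : 0 ≤ E1 := by
    rw [hE1]
    positivity
  calc ∑ o, ∑ o', ∑ q, ∑ q', wt p lam Pt v G θ ω o o' * wt p lam Pt v G θ ω q q' *
        ∑ k ∈ S, uu p lam T nz G k o' * uu p lam T nz G k q'
      ≤ ∑ o, ∑ o', ∑ q, ∑ q', wt p lam Pt v G θ ω o o' *
          (wt p lam Pt v G θ ω q q' * D o q) :=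
        Finset.sum_le_sum fun o _ => Finset.sum_le_sum fun o' _ => Finset.sum_le_sum fun q _ =>
          Finset.sum_le_sum fun q' _ => e3 o o' q q'
    _ = ∑ o, (∑ o', wt p lam Pt v G θ ω o o') *
          ∑ q, ∑ q', wt p lam Pt v G θ ω q q' * D o q := by
        refine Finset.sum_congr rfl fun o _ => ?_
        rw [Finset.sum_mul]
        refine Finset.sum_congr rfl fun o' _ => ?_
        rw [Finset.mul_sum]
        refine Finset.sum_congr rfl fun q _ => ?_
        rw [Finset.mul_sum]
    _ ≤ ∑ o, yw p lam G ω o * E1 := by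
        refine Finset.sum_le_sum fun o _ => ?_
        rcases (hp o).eq_or_lt with h0 | h0
        · have h1 : ∑ o', wt p lam Pt v G θ ω o o' = 0 := by
            refine Finset.sum_eq_zero fun o' _ => ?_
            unfold wt
            rw [← h0]
            simp
          rw [h1, zero_mul]
          exact mul_nonneg (yw_nonneg hp _ _) hE10
        · refine mul_le_mul (wt_sum hp ω o) (e4 o h0) ?_ (yw_nonneg hp _ _)
          exact Finset.sum_nonneg fun q _ => Finset.sum_nonneg fun q' _ =>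
            mul_nonneg (wt_nonneg hp _ _ _) (hD0 _ _)
    _ = (∑ o, yw p lam G ω o) * E1 := by rw [Finset.sum_mul]
    _ ≤ 1 * E1 := by
        refine mul_le_mul_of_nonneg_right ?_ hE10
        refine le_trans (Finset.sum_le_sum fun o _ => ?_) (le_of_eq (sum_fib hp lam hω))
        unfold yw
        have h5 : 0 ≤ p o / law p lam (lam ω) := div_nonneg (hp o) (law_nonneg hp _ _)
        by_cases h1 : lam o = lam ω
        · rw [if_pos h1]
          split_ifs
          · exact le_rfl
          · exact h5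
        · rw [if_neg h1, if_neg (fun h2 => h1 h2.1)]
    _ = 4104 * Θ ^ 3 * (1 + Real.log M) / (θ * M ^ 2) := by
        rw [hE1]
        field_simp
        ring

/-- The collision energy of the base places. -/
theorem energy_all (h : Setup p lam b Pt T nz v E B G M θ Θ η c₁) :
    ∑ ω, p ω * (open Classical in if ω ∈ E then
      (∑ u, if u ∈ E ∧ b u = b ω ∧ T u = T ω ∧ nz u = nz ω then p u else 0) /
        Pool.Agent.H49.Ent.law p b (b ω) else 0) ≤
      4104 * Θ ^ 3 * (1 + Real.log M) / (θ * M ^ 2) / (η * c₁) ^ 2 := by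
  classical
  have hp := h.law.nonneg
  have hM1 : (1 : ℝ) ≤ M := by exact_mod_cast h.M1
  have hκ : 0 < η * c₁ := mul_pos h.η0 h.c0
  set X : Finset ℤ := univ.image nz with hX
  set S := (Finset.Ico (0 : ℤ) (0 + (M : ℤ))) ×ˢ X with hS
  have hkey : ∀ ω, 0 < p ω → key T nz ω ∈ S := by
    intro ω hω
    have h1 := h.time ω hω
    rw [hS, Finset.mem_product]
    refine ⟨Finset.mem_Ico.2 ⟨h1.1, ?_⟩, Finset.mem_image_of_mem _ (Finset.mem_univ _)⟩
    have : T ω < M := h1.2
    show T ω < 0 + (M : ℤ)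
    omega
  set AA : ℤ × ℤ → Ω → ℝ := fun k => av p lam (gg p lam Pt T nz v G θ k) with hAA
  have hAA0 : ∀ k ω, 0 ≤ AA k ω := fun k ω => av_nonneg hp lam (fun o => gg_nonneg hp k o) ω
  set mm : ℤ × ℤ → Ω → ℝ := fun k ω => ∑ o, (if b o = b ω then p o * AA k o else 0) with hmm
  have hmm0 : ∀ k ω, 0 ≤ mm k ω := fun k ω => Finset.sum_nonneg fun o _ => by
    split_ifs
    · exact mul_nonneg (hp _) (hAA0 _ _)
    · exact le_rfl
  -- tower over the lines
  have htow : ∀ (ψ : Ω → ℝ) (k : ℤ × ℤ), (∀ ω ω', b ω = b ω' → ψ ω = ψ ω') →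
      ∑ o, p o * (ψ o * gg p lam Pt T nz v G θ k o) = ∑ o, p o * (ψ o * AA k o) := by
    intro ψ k hψ
    rw [hAA]
    exact (tower hp lam _ ψ fun ω ω' a1 a2 a3 => hψ ω ω' (h.line ω ω' a1 a2 a3).1).symm
  -- step A
  have hA : ∀ ω, 0 < p ω →
      η * c₁ * (∑ u, if u ∈ E ∧ b u = b ω ∧ T u = T ω ∧ nz u = nz ω then p u else 0) ≤
        mm (key T nz ω) ω := by
    intro ω hω
    have h1 := dom h (fun o k => if b o = b ω ∧ k = key T nz ω then 1 else 0)
      (fun o k => by split_ifs <;> norm_num)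
      (fun o o' k _ _ ho => by simp only [ho]) S hkey
    have e1 : ∑ o, p o * (if o ∈ E then (if b o = b ω ∧ key T nz o = key T nz ω then (1 : ℝ)
        else 0) else 0) =
        ∑ u, if u ∈ E ∧ b u = b ω ∧ T u = T ω ∧ nz u = nz ω then p u else 0 := by
      refine Finset.sum_congr rfl fun u _ => ?_
      by_cases h2 : u ∈ E
      · by_cases h3 : b u = b ω ∧ key T nz u = key T nz ω
        · have h4 := Prod.ext_iff.1 h3.2
          rw [if_pos h2, if_pos h3, if_pos ⟨h2, h3.1, h4.1, h4.2⟩, mul_one]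
        · rw [if_pos h2, if_neg h3, if_neg, mul_zero]
          rintro ⟨_, a2, a3, a4⟩
          exact h3 ⟨a2, Prod.ext a3 a4⟩
      · rw [if_neg h2, if_neg (fun hh => h2 hh.1), mul_zero]
    have e2 : ∑ k ∈ S, ∑ o, p o * ((if b o = b ω ∧ k = key T nz ω then (1 : ℝ) else 0) *
        gg p lam Pt T nz v G θ k o) = mm (key T nz ω) ω := by
      rw [Finset.sum_eq_single (key T nz ω)]
      · have e3 := htow (fun o => if b o = b ω then 1 else 0) (key T nz ω)
          (fun o o' ho => by simp only [ho])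
        have e4 : ∀ o, p o * ((if b o = b ω ∧ key T nz ω = key T nz ω then (1 : ℝ) else 0) *
            gg p lam Pt T nz v G θ (key T nz ω) o) = p o * ((if b o = b ω then 1 else 0) *
            gg p lam Pt T nz v G θ (key T nz ω) o) := by
          intro o
          by_cases h6 : b o = b ω
          · rw [if_pos ⟨h6, rfl⟩, if_pos h6]
          · rw [if_neg (fun hh => h6 hh.1), if_neg h6]
        rw [Finset.sum_congr rfl fun o _ => e4 o, e3, hmm]
        refine Finset.sum_congr rfl fun o _ => ?_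
        split_ifs
        · rw [one_mul]
        · rw [zero_mul, mul_zero]
      · intro k _ hk
        refine Finset.sum_eq_zero fun o _ => ?_
        rw [if_neg (fun hh => hk hh.2)]
        simp
      · intro h5
        exact absurd (hkey ω hω) h5
    rw [e2] at h1
    rw [← e1]
    exact h1
  -- step B
  have hB := dom h (fun o k => mm k o / Pool.Agent.H49.Ent.law p b (b o))
    (fun o k => div_nonneg (hmm0 _ _) (law_nonneg hp _ _))
    (fun o o' k _ _ ho => by simp only [hmm, ho]) S hkey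
  have hC : ∀ k, ∑ o, p o * (mm k o / Pool.Agent.H49.Ent.law p b (b o) *
      gg p lam Pt T nz v G θ k o) ≤ ∑ o, p o * (AA k o) ^ 2 := by
    intro k
    rw [htow (fun o => mm k o / Pool.Agent.H49.Ent.law p b (b o)) k
      (fun o o' ho => by simp only [hmm, ho])]
    have e1 : ∀ o, p o * (mm k o / Pool.Agent.H49.Ent.law p b (b o) * AA k o) =
        ∑ u, (if b u = b o then p o * p u * (AA k o * AA k u) /
          Pool.Agent.H49.Ent.law p b (b o) else 0) := by
      intro o
      rw [hmm]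
      simp only
      rw [Finset.sum_div, Finset.sum_mul, Finset.mul_sum]
      refine Finset.sum_congr rfl fun u _ => ?_
      split_ifs
      · ring
      · ring
    have e2 : ∀ o u, (if b u = b o then p o * p u * (AA k o * AA k u) /
          Pool.Agent.H49.Ent.law p b (b o) else 0) ≤
        1 / 2 * (if b u = b o then p o * p u * (AA k o) ^ 2 /
          Pool.Agent.H49.Ent.law p b (b o) else 0) +
        1 / 2 * (if b u = b o then p o * p u * (AA k u) ^ 2 /
          Pool.Agent.H49.Ent.law p b (b o) else 0) := by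
      intro o u
      split_ifs
      · have h3 : 0 ≤ p o * p u / Pool.Agent.H49.Ent.law p b (b o) :=
          div_nonneg (mul_nonneg (hp _) (hp _)) (law_nonneg hp _ _)
        have h4 : AA k o * AA k u ≤ 1 / 2 * (AA k o) ^ 2 + 1 / 2 * (AA k u) ^ 2 := by
          nlinarith [sq_nonneg (AA k o - AA k u)]
        calc p o * p u * (AA k o * AA k u) / Pool.Agent.H49.Ent.law p b (b o)
            = p o * p u / Pool.Agent.H49.Ent.law p b (b o) * (AA k o * AA k u) := by ring
          _ ≤ p o * p u / Pool.Agent.H49.Ent.law p b (b o) *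
              (1 / 2 * (AA k o) ^ 2 + 1 / 2 * (AA k u) ^ 2) := mul_le_mul_of_nonneg_left h4 h3
          _ = _ := by ring
      · norm_num
    have e3 : ∀ o, ∑ u, (if b u = b o then p o * p u * (AA k o) ^ 2 /
          Pool.Agent.H49.Ent.law p b (b o) else 0) = p o * (AA k o) ^ 2 := by
      intro o
      rcases (hp o).eq_or_lt with h0 | h0
      · rw [← h0]
        simp
      have e4 : ∀ u, (if b u = b o then p o * p u * (AA k o) ^ 2 /
          Pool.Agent.H49.Ent.law p b (b o) else 0) = p o * (AA k o) ^ 2 *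
            (if b u = b o then p u / Pool.Agent.H49.Ent.law p b (b o) else 0) := by
        intro u
        split_ifs
        · ring
        · ring
      rw [Finset.sum_congr rfl fun u _ => e4 u, ← Finset.mul_sum, sum_fib hp b h0, mul_one]
    simp_rw [e1]
    calc ∑ o, ∑ u, (if b u = b o then p o * p u * (AA k o * AA k u) /
          Pool.Agent.H49.Ent.law p b (b o) else 0)
        ≤ ∑ o, ∑ u, (1 / 2 * (if b u = b o then p o * p u * (AA k o) ^ 2 /
          Pool.Agent.H49.Ent.law p b (b o) else 0) +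
        1 / 2 * (if b u = b o then p o * p u * (AA k u) ^ 2 /
          Pool.Agent.H49.Ent.law p b (b o) else 0)) :=
          Finset.sum_le_sum fun o _ => Finset.sum_le_sum fun u _ => e2 o u
      _ = 1 / 2 * (∑ o, ∑ u, (if b u = b o then p o * p u * (AA k o) ^ 2 /
          Pool.Agent.H49.Ent.law p b (b o) else 0)) +
          1 / 2 * (∑ o, ∑ u, (if b u = b o then p o * p u * (AA k u) ^ 2 /
          Pool.Agent.H49.Ent.law p b (b o) else 0)) := by
          simp only [Finset.sum_add_distrib, Finset.mul_sum]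
      _ = 1 / 2 * (∑ o, p o * (AA k o) ^ 2) + 1 / 2 * (∑ o, p o * (AA k o) ^ 2) := by
          congr 2
          · exact Finset.sum_congr rfl fun o _ => e3 o
          · rw [exch b (fun _ u => (AA k u) ^ 2)]
            exact Finset.sum_congr rfl fun o _ => e3 o
      _ = _ := by ring
  have hD : ∑ k ∈ S, ∑ o, p o * (AA k o) ^ 2 ≤
      4104 * Θ ^ 3 * (1 + Real.log M) / (θ * M ^ 2) := by
    rw [Finset.sum_comm]
    calc ∑ o, ∑ k ∈ S, p o * (AA k o) ^ 2
        = ∑ o, p o * ∑ k ∈ S, (AA k o) ^ 2 := by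
          refine Finset.sum_congr rfl fun o _ => ?_
          rw [Finset.mul_sum]
      _ ≤ ∑ o, p o * (4104 * Θ ^ 3 * (1 + Real.log M) / (θ * M ^ 2)) := by
          refine Finset.sum_le_sum fun o _ => ?_
          rcases (hp o).eq_or_lt with h0 | h0
          · rw [← h0]
            simp
          · exact mul_le_mul_of_nonneg_left (energy h h0 X) h0.le
      _ = _ := by rw [← Finset.sum_mul, h.law.sum_one, one_mul]
  have hF : ∑ k ∈ S, ∑ o, p o * (mm k o / Pool.Agent.H49.Ent.law p b (b o) *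
      gg p lam Pt T nz v G θ k o) ≤ 4104 * Θ ^ 3 * (1 + Real.log M) / (θ * M ^ 2) :=
    (Finset.sum_le_sum fun k _ => hC k).trans hD
  have hG := hB.trans hF
  rw [le_div_iff₀ (by positivity)]
  calc (∑ ω, p ω * (if ω ∈ E then
      (∑ u, if u ∈ E ∧ b u = b ω ∧ T u = T ω ∧ nz u = nz ω then p u else 0) /
        Pool.Agent.H49.Ent.law p b (b ω) else 0)) * (η * c₁) ^ 2
      = η * c₁ * ∑ ω, p ω * (if ω ∈ E then
      (η * c₁ * (∑ u, if u ∈ E ∧ b u = b ω ∧ T u = T ω ∧ nz u = nz ω then p u else 0)) /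
        Pool.Agent.H49.Ent.law p b (b ω) else 0) := by
        rw [Finset.sum_mul, Finset.mul_sum]
        refine Finset.sum_congr rfl fun ω _ => ?_
        split_ifs
        · ring
        · ring
    _ ≤ η * c₁ * ∑ ω, p ω * (if ω ∈ E then mm (key T nz ω) ω /
        Pool.Agent.H49.Ent.law p b (b ω) else 0) := by
        refine mul_le_mul_of_nonneg_left (Finset.sum_le_sum fun ω _ => ?_) hκ.le
        rcases (hp ω).eq_or_lt with h0 | h0
        · rw [← h0]
          simp
        refine mul_le_mul_of_nonneg_left ?_ h0.le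
        split_ifs
        · exact div_le_div_of_nonneg_right (hA ω h0) (law_nonneg hp _ _)
        · exact le_rfl
    _ ≤ _ := hG

theorem small_cells (h : Setup p lam b Pt T nz v E B G M θ Θ η c₁) :
    ∑ ω, p ω * (open Classical in if ω ∈ E then Pool.Agent.H49.Ent.law p b (b ω) /
      (∑ u, if u ∈ E ∧ b u = b ω ∧ T u = T ω then p u else 0) else 0) ≤ M := by
  classical
  have hp := h.law.nonneg
  set nn : Ω → ℝ := fun ω => ∑ u, if u ∈ E ∧ b u = b ω ∧ T u = T ω then p u else 0 with hnn
  have hnn0 : ∀ ω, 0 ≤ nn ω := fun ω => Finset.sum_nonneg fun u _ => by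
    split_ifs
    · exact hp _
    · exact le_rfl
  have e1 : ∀ ω, p ω * (if ω ∈ E then Pool.Agent.H49.Ent.law p b (b ω) / nn ω else 0) =
      ∑ u, (if b u = b ω ∧ ω ∈ E then p u * (p ω / nn ω) else 0) := by
    intro ω
    by_cases hE : ω ∈ E
    · rw [if_pos hE]
      unfold Pool.Agent.H49.Ent.law
      rw [Finset.sum_div, Finset.mul_sum]
      refine Finset.sum_congr rfl fun u _ => ?_
      by_cases h1 : b u = b ω
      · rw [if_pos h1, if_pos ⟨h1, hE⟩]
        ring
      · rw [if_neg h1, if_neg (fun hh => h1 hh.1)]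
        ring
    · rw [if_neg hE, mul_zero]
      symm
      refine Finset.sum_eq_zero fun u _ => ?_
      rw [if_neg (fun hh => hE hh.2)]
  rw [Finset.sum_congr rfl fun ω _ => e1 ω, Finset.sum_comm]
  have e2 : ∀ u, ∑ ω, (if b u = b ω ∧ ω ∈ E then p u * (p ω / nn ω) else 0) ≤ p u * M := by
    intro u
    have e3 : ∀ ω, (if b u = b ω ∧ ω ∈ E then p u * (p ω / nn ω) else 0) =
        p u * ∑ t ∈ Finset.Ico (0 : ℤ) (0 + (M : ℤ)),
          (if b u = b ω ∧ ω ∈ E ∧ T ω = t then p ω / nn ω else 0) := by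
      intro ω
      rcases (hp ω).eq_or_lt with h0 | h0
      · rw [← h0]
        simp
      by_cases h1 : b u = b ω ∧ ω ∈ E
      · rw [if_pos h1, Finset.sum_eq_single (T ω)]
        · rw [if_pos ⟨h1.1, h1.2, rfl⟩]
        · intro t _ ht
          rw [if_neg (fun hh => ht hh.2.2.symm)]
        · intro h2
          have h3 := h.time ω h0
          exact absurd (Finset.mem_Ico.2 ⟨h3.1, by omega⟩) h2
      · rw [if_neg h1]
        have : ∑ t ∈ Finset.Ico (0 : ℤ) (0 + (M : ℤ)),
          (if b u = b ω ∧ ω ∈ E ∧ T ω = t then p ω / nn ω else 0) = 0 := by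
          refine Finset.sum_eq_zero fun t _ => ?_
          rw [if_neg (fun hh => h1 ⟨hh.1, hh.2.1⟩)]
        rw [this, mul_zero]
    rw [Finset.sum_congr rfl fun ω _ => e3 ω, ← Finset.mul_sum]
    refine mul_le_mul_of_nonneg_left ?_ (hp u)
    rw [Finset.sum_comm]
    calc ∑ t ∈ Finset.Ico (0 : ℤ) (0 + (M : ℤ)), ∑ ω,
          (if b u = b ω ∧ ω ∈ E ∧ T ω = t then p ω / nn ω else 0)
        ≤ ∑ _t ∈ Finset.Ico (0 : ℤ) (0 + (M : ℤ)), (1 : ℝ) := by
          refine Finset.sum_le_sum fun t _ => ?_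
          by_cases hex : ∃ ω, b u = b ω ∧ ω ∈ E ∧ T ω = t
          · obtain ⟨ω₀, a1, a2, a3⟩ := hex
            have e4 : ∀ ω, (if b u = b ω ∧ ω ∈ E ∧ T ω = t then p ω / nn ω else 0) =
                (if ω ∈ E ∧ b ω = b ω₀ ∧ T ω = T ω₀ then p ω else 0) / nn ω₀ := by
              intro ω
              by_cases h1 : b u = b ω ∧ ω ∈ E ∧ T ω = t
              · have h2 : b ω = b ω₀ := h1.1.symm.trans a1
                have h3 : T ω = T ω₀ := h1.2.2.trans a3.symm
                have h4 : nn ω = nn ω₀ := by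
                  simp only [hnn, h2, h3]
                rw [if_pos h1, if_pos ⟨h1.2.1, h2, h3⟩, h4]
              · rw [if_neg h1, if_neg, zero_div]
                rintro ⟨b1, b2, b3⟩
                exact h1 ⟨a1.trans b2.symm, b1, b3.trans a3⟩
            rw [Finset.sum_congr rfl fun ω _ => e4 ω, ← Finset.sum_div]
            exact div_self_le_one _
          · refine le_trans (le_of_eq (Finset.sum_eq_zero fun ω _ => ?_)) zero_le_one
            rw [if_neg (fun hh => hex ⟨ω, hh⟩)]
      _ = M := by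
          rw [Finset.sum_const, Int.card_Ico]
          simp
  refine (Finset.sum_le_sum fun u _ => e2 u).trans (le_of_eq ?_)
  rw [← Finset.sum_mul, h.law.sum_one, one_mul]

/-- **Long separations, pointwise certificates.** -/
theorem long_cert (h : Setup p lam b Pt T nz v E B G M θ Θ η c₁) {lb τ : ℝ} (hlb : 0 < lb)
    (hτ : 0 < τ) :
    Pr p {ω | ω ∈ E ∧ lb ≤ Pool.Agent.H49.Ent.law (Pool.Agent.H49.Ent.cond p
      (fun o => (b o, T o, o ∈ E)) (b ω, T ω, ω ∈ E)) nz (nz ω)} ≤
      τ + 4104 * Θ ^ 3 * (1 + Real.log M) / (θ * (η * c₁) ^ 2 * lb * τ * M) := by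
  classical
  have hp := h.law.nonneg
  have hM1 : (1 : ℝ) ≤ M := by exact_mod_cast h.M1
  have hM : (0 : ℝ) < M := by linarith
  have hκ : 0 < η * c₁ := mul_pos h.η0 h.c0
  have hθ := h.θ0
  set nn : Ω → ℝ := fun ω => ∑ u, if u ∈ E ∧ b u = b ω ∧ T u = T ω then p u else 0 with hnn
  set νν : Ω → ℝ := fun ω => ∑ u, if u ∈ E ∧ b u = b ω ∧ T u = T ω ∧ nz u = nz ω then p u
    else 0 with hνν
  have hν0 : ∀ ω, 0 ≤ νν ω := fun ω => Finset.sum_nonneg fun u _ => by
    split_ifs
    · exact hp _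
    · exact le_rfl
  have hE1 := energy_all h
  have hE2 := small_cells h
  have e1 : ∀ ω, ω ∈ E → 0 < p ω → Pool.Agent.H49.Ent.law (Pool.Agent.H49.Ent.cond p
      (fun o => (b o, T o, o ∈ E)) (b ω, T ω, ω ∈ E)) nz (nz ω) = νν ω / nn ω := by
    intro ω hE _
    have e2 : Pool.Agent.H49.Ent.law p (fun o => (b o, T o, o ∈ E)) (b ω, T ω, ω ∈ E) =
        nn ω := by
      unfold Pool.Agent.H49.Ent.law
      refine Finset.sum_congr rfl fun u _ => ?_
      by_cases h1 : u ∈ E ∧ b u = b ω ∧ T u = T ω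
      · rw [if_pos h1, if_pos]
        simp [h1.1, h1.2.1, h1.2.2, hE]
      · rw [if_neg h1, if_neg]
        intro h2
        simp only [Prod.mk.injEq, hE, eq_iff_iff, iff_true] at h2
        exact h1 ⟨h2.2.2, h2.1, h2.2.1⟩
    unfold Pool.Agent.H49.Ent.cond
    rw [e2]
    unfold Pool.Agent.H49.Ent.law
    rw [hνν]
    simp only
    rw [Finset.sum_div]
    refine Finset.sum_congr rfl fun u _ => ?_
    by_cases h1 : u ∈ E ∧ b u = b ω ∧ T u = T ω ∧ nz u = nz ω
    · rw [if_pos h1.2.2.2, if_pos h1, if_pos]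
      simp [h1.1, h1.2.1, h1.2.2.1, hE]
    · rw [if_neg h1, zero_div]
      by_cases h3 : nz u = nz ω
      · rw [if_pos h3, if_neg]
        intro h2
        simp only [Prod.mk.injEq, hE, eq_iff_iff, iff_true] at h2
        exact h1 ⟨h2.2.2, h2.1, h2.2.1, h3⟩
      · rw [if_neg h3]
  -- the two cases
  have key1 : ∀ ω, (if ω ∈ {ω | ω ∈ E ∧ lb ≤ Pool.Agent.H49.Ent.law (Pool.Agent.H49.Ent.cond p
      (fun o => (b o, T o, o ∈ E)) (b ω, T ω, ω ∈ E)) nz (nz ω)} then p ω else 0) ≤
      τ / M * (p ω * (if ω ∈ E then Pool.Agent.H49.Ent.law p b (b ω) / nn ω else 0)) +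
      M / (lb * τ) * (p ω * (if ω ∈ E then νν ω / Pool.Agent.H49.Ent.law p b (b ω) else 0)) := by
    intro ω
    rcases (hp ω).eq_or_lt with h0 | h0
    · rw [← h0]
      simp
    by_cases hm : ω ∈ {ω | ω ∈ E ∧ lb ≤ Pool.Agent.H49.Ent.law (Pool.Agent.H49.Ent.cond p
      (fun o => (b o, T o, o ∈ E)) (b ω, T ω, ω ∈ E)) nz (nz ω)}
    · rw [if_pos hm]
      obtain ⟨hE, h1⟩ := hm
      rw [e1 ω hE h0] at h1
      rw [if_pos hE, if_pos hE]
      have hb := law_pos hp b h0
      have hn : 0 < nn ω := by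
        refine h0.trans_le ?_
        refine le_trans (le_of_eq ?_) (Finset.single_le_sum (f := fun u =>
          if u ∈ E ∧ b u = b ω ∧ T u = T ω then p u else 0) (fun u _ => ?_)
          (Finset.mem_univ ω))
        · simp [hE]
        · split_ifs
          · exact hp _
          · exact le_rfl
      have h2 : 1 ≤ τ / M * (Pool.Agent.H49.Ent.law p b (b ω) / nn ω) +
          M / (lb * τ) * (νν ω / Pool.Agent.H49.Ent.law p b (b ω)) := by
        set Pb := Pool.Agent.H49.Ent.law p b (b ω) with hPb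
        rcases le_or_gt (nn ω) (τ / M * Pb) with h3 | h3
        · have h4 : 1 ≤ τ / M * (Pb / nn ω) := by
            rw [← mul_div_assoc, le_div_iff₀ hn, one_mul]
            exact h3
          have h5 : 0 ≤ M / (lb * τ) * (νν ω / Pb) := by
            have := hν0 ω
            positivity
          linarith
        · have h4 : 1 ≤ M / (lb * τ) * (νν ω / Pb) := by
            rw [le_div_iff₀ hn] at h1
            have h6 : lb * (τ / M * Pb) ≤ νν ω := by
              refine le_trans ?_ h1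
              exact mul_le_mul_of_nonneg_left h3.le hlb.le
            rw [div_mul_div_comm, le_div_iff₀ (by positivity), one_mul]
            have h7 : lb * (τ / M * Pb) * M = lb * τ * Pb := by
              field_simp
            nlinarith
          have h5 : 0 ≤ τ / M * (Pb / nn ω) := by positivity
          linarith
      calc p ω = p ω * 1 := (mul_one _).symm
        _ ≤ p ω * (τ / M * (Pool.Agent.H49.Ent.law p b (b ω) / nn ω) +
          M / (lb * τ) * (νν ω / Pool.Agent.H49.Ent.law p b (b ω))) :=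
            mul_le_mul_of_nonneg_left h2 h0.le
        _ = _ := by ring
    · rw [if_neg hm]
      have h1 : 0 ≤ (if ω ∈ E then Pool.Agent.H49.Ent.law p b (b ω) / nn ω else 0) := by
        split_ifs
        · refine div_nonneg (law_nonneg hp _ _) (Finset.sum_nonneg fun u _ => ?_)
          split_ifs
          · exact hp _
          · exact le_rfl
        · exact le_rfl
      have h2 : 0 ≤ (if ω ∈ E then νν ω / Pool.Agent.H49.Ent.law p b (b ω) else 0) := by
        split_ifs
        · exact div_nonneg (hν0 ω) (law_nonneg hp _ _)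
        · exact le_rfl
      positivity
  unfold Pr
  have e3 : Pool.Agent.H49.Ent.law p (fun ω => ω ∈ {ω | ω ∈ E ∧
      lb ≤ Pool.Agent.H49.Ent.law (Pool.Agent.H49.Ent.cond p
      (fun o => (b o, T o, o ∈ E)) (b ω, T ω, ω ∈ E)) nz (nz ω)}) True =
      ∑ ω, (if ω ∈ {ω | ω ∈ E ∧ lb ≤ Pool.Agent.H49.Ent.law (Pool.Agent.H49.Ent.cond p
      (fun o => (b o, T o, o ∈ E)) (b ω, T ω, ω ∈ E)) nz (nz ω)} then p ω else 0) := by
    unfold Pool.Agent.H49.Ent.law
    refine Finset.sum_congr rfl fun ω _ => ?_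
    simp only [eq_iff_iff, iff_true]
  rw [e3]
  refine (Finset.sum_le_sum fun ω _ => key1 ω).trans ?_
  rw [Finset.sum_add_distrib, ← Finset.mul_sum, ← Finset.mul_sum]
  have h5 : τ / M * ∑ ω, p ω * (if ω ∈ E then Pool.Agent.H49.Ent.law p b (b ω) / nn ω
      else 0) ≤ τ := by
    calc _ ≤ τ / M * M := mul_le_mul_of_nonneg_left hE2 (by positivity)
      _ = τ := by field_simp
  have h6 : M / (lb * τ) * ∑ ω, p ω * (if ω ∈ E then νν ω / Pool.Agent.H49.Ent.law p b (b ω)
      else 0) ≤ M / (lb * τ) * (4104 * Θ ^ 3 * (1 + Real.log M) / (θ * M ^ 2) /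
        (η * c₁) ^ 2) := mul_le_mul_of_nonneg_left hE1 (by positivity)
  have e4 : M / (lb * τ) * (4104 * Θ ^ 3 * (1 + Real.log M) / (θ * M ^ 2) / (η * c₁) ^ 2) =
      4104 * Θ ^ 3 * (1 + Real.log M) / (θ * (η * c₁) ^ 2 * lb * τ * M) := by
    field_simp
  rw [e4] at h6
  linarith

end long

end Pool.LC
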